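import Mathlib
import Pool.Agent.Helper885.ExactTree.Planar
import Pool.Agent.Helper885.ExactTree.Classes
import Pool.Agent.Helper885.ExactTree.Sym

set_option autoImplicit false

namespace Pool.Agent.Results.MP_da225d_gt.Assembly

open Pool.Agent.Helper885.ExRef

/-- Let `M` be a plane tree-like continuum of which the plane contains uncountably many pairwise
disjoint copies. Then (1)-(3) `M` has symmetric span zero (helper648), and (4) `M` has span zero if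
it embeds in an inverse limit of trees with simplicial bonding maps, or has exact tree refinements,
or can be cut into arbitrarily small pieces at small necks. -/
theorem result (M : Set (EuclideanSpace ℝ (Fin 2))) (hM : IsCompact M) (hconn : IsConnected M)
    (htree : ∀ ε : ℝ, 0 < ε → ∃ n : ℕ, ∃ U : Fin n → Set (EuclideanSpace ℝ (Fin 2)),
          (∀ i, IsOpen (U i)) ∧ M ⊆ ⋃ i, U i ∧
          (∀ i, ∀ x ∈ U i ∩ M, ∀ y ∈ U i ∩ M, dist x y < ε) ∧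
          (∀ i j k, i ≠ j → j ≠ k → i ≠ k → U i ∩ U j ∩ U k ∩ M = ∅) ∧
          (SimpleGraph.fromRel (fun i j => (U i ∩ U j ∩ M).Nonempty)).IsTree)
    (S : Set (Set (EuclideanSpace ℝ (Fin 2)))) (hS : ¬ S.Countable)
    (hdisj : S.PairwiseDisjoint id) (hhomeo : ∀ A ∈ S, Nonempty (A ≃ₜ M)) :
    (∀ ε : ℝ, 0 < ε →
      ∃ A : Set (EuclideanSpace ℝ (Fin 2) × EuclideanSpace ℝ (Fin 2)),
        IsClosed A ∧ Disjoint A (Prod.swap ⁻¹' A) ∧
        {p | p ∈ M ×ˢ M ∧ ε ≤ dist p.1 p.2} = A ∪ Prod.swap ⁻¹' A) ∧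
    (∀ K : Set (EuclideanSpace ℝ (Fin 2) × EuclideanSpace ℝ (Fin 2)),
        K ⊆ M ×ˢ M → IsPreconnected K → (∃ ε : ℝ, 0 < ε ∧ ∀ p ∈ K, ε ≤ dist p.1 p.2) →
        Disjoint K (Prod.swap ⁻¹' K)) ∧
    (∀ K : Set (EuclideanSpace ℝ (Fin 2) × EuclideanSpace ℝ (Fin 2)),
        K ⊆ M ×ˢ M → IsCompact K → IsConnected K →
        (∃ a b, (a, b) ∈ K ∧ (b, a) ∈ K) → ∃ x, (x, x) ∈ K) ∧
    ((SimplicialTreeLimit M ∨ ExactTreeRefinable M ∨ SmallNecks M) →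
      ∀ Z : Set (EuclideanSpace ℝ (Fin 2) × EuclideanSpace ℝ (Fin 2)),
        Z ⊆ M ×ˢ M → IsCompact Z → IsConnected Z → Prod.snd '' Z ⊆ Prod.fst '' Z →
        ∃ x, (x, x) ∈ Z) := by
  obtain ⟨s1, s2, s3⟩ := Pool.Agent.Helper885.Sym.sym_result M hM hconn htree S hS hdisj hhomeo
  refine ⟨s1, s2, s3, ?_⟩
  intro hcut
  classical
  intro Z hZM hZc hZ hpr
  have hcs : CompactSpace M := isCompact_iff_compactSpace.1 hM
  have hD := planar_D M hM hconn (by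
    intro ε hε
    obtain ⟨n, U, h1, h2, h3, _, h5⟩ := htree ε hε
    exact ⟨n, U, h1, h2, h3, h5.isAcyclic⟩) S hS hdisj hhomeo
  have htree' : ∀ ε : ℝ, 0 < ε → ∃ n : ℕ, ∃ U : Fin n → Set M,
      (∀ i, IsOpen (U i)) ∧ (∀ i, (U i).Nonempty) ∧ (∀ i, ∀ x ∈ U i, ∀ y ∈ U i, dist x y < ε) ∧
      (⋃ i, U i) = Set.univ ∧
      (SimpleGraph.fromRel (fun i j : Fin n => (U i ∩ U j).Nonempty)).IsAcyclic := by
    intro ε hε
    obtain ⟨n, U, h1, h2, h3, _, h5⟩ := htree ε hε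
    -- keep only the links that meet M
    let J : Type := {i : Fin n // (U i ∩ M).Nonempty}
    let e : Fin (Fintype.card J) ≃ J := (Fintype.equivFin J).symm
    refine ⟨Fintype.card J, fun i => Subtype.val ⁻¹' (U (e i).1), ?_, ?_, ?_, ?_, ?_⟩
    · intro i; exact (h1 _).preimage continuous_subtype_val
    · intro i
      obtain ⟨x, hx1, hx2⟩ := (e i).2
      exact ⟨⟨x, hx2⟩, hx1⟩
    · intro i x hx y hy
      exact h3 (e i).1 x.1 ⟨hx, x.2⟩ y.1 ⟨hy, y.2⟩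
    · ext x
      simp only [Set.mem_iUnion, Set.mem_preimage, Set.mem_univ, iff_true]
      obtain ⟨i, hi⟩ := Set.mem_iUnion.1 (h2 x.2)
      refine ⟨e.symm ⟨i, ⟨x.1, hi, x.2⟩⟩, ?_⟩
      rw [Equiv.apply_symm_apply]
      exact hi
    · refine SimpleGraph.IsAcyclic.comap (G' := SimpleGraph.fromRel
        (fun i j => (U i ∩ U j ∩ M).Nonempty)) ⟨fun i => (e i).1, ?_⟩ ?_ h5.isAcyclic
      · intro a b hab
        rw [SimpleGraph.fromRel_adj] at hab ⊢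
        refine ⟨fun h => hab.1 (e.injective (Subtype.ext h)), ?_⟩
        rcases hab.2 with ⟨x, hx1, hx2⟩ | ⟨x, hx1, hx2⟩
        · exact Or.inl ⟨x.1, ⟨hx1, hx2⟩, x.2⟩
        · exact Or.inr ⟨x.1, ⟨hx1, hx2⟩, x.2⟩
      · intro a b hab
        exact e.injective (Subtype.ext hab)
  let j : M × M → EuclideanSpace ℝ (Fin 2) × EuclideanSpace ℝ (Fin 2) :=
    Prod.map Subtype.val Subtype.val
  have hj : Topology.IsClosedEmbedding j :=
    (hM.isClosed.isClosedEmbedding_subtypeVal).prodMap (hM.isClosed.isClosedEmbedding_subtypeVal)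
  have himg : j '' (j ⁻¹' Z) = Z := by
    apply Set.image_preimage_eq_of_subset
    intro z hz
    exact ⟨(⟨z.1, (hZM hz).1⟩, ⟨z.2, (hZM hz).2⟩), rfl⟩
  have hZc' : IsCompact (j ⁻¹' Z) := hj.isCompact_preimage hZc
  have hZ' : IsConnected (j ⁻¹' Z) := by
    refine ⟨?_, ?_⟩
    · obtain ⟨z, hz⟩ := hZ.nonempty
      exact ⟨(⟨z.1, (hZM hz).1⟩, ⟨z.2, (hZM hz).2⟩), hz⟩
    · rw [← hj.isInducing.isPreconnected_image, himg]
      exact hZ.isPreconnected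
  have hpr' : Prod.snd '' (j ⁻¹' Z) ⊆ Prod.fst '' (j ⁻¹' Z) := by
    rintro y ⟨z, hz, rfl⟩
    obtain ⟨w, hw, hw2⟩ := hpr ⟨j z, hz, rfl⟩
    refine ⟨(⟨w.1, (hZM hw).1⟩, ⟨w.2, (hZM hw).2⟩), hw, ?_⟩
    apply Subtype.ext
    exact hw2
  obtain ⟨x, hx⟩ := classes_span htree' hcut hD (j ⁻¹' Z) hZc' hZ' hpr'
  exact ⟨x.1, hx⟩

end Pool.Agent.Results.MP_da225d_gt.Assembly
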