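import Mathlib
import Pool.Agent.Helper885.ExactTree.Planar

set_option autoImplicit false

namespace Pool.Agent.Results.MP_da225d_gt.PlanarExactRefinements

open Pool.Agent.Helper885.ExRef

/-- A plane continuum with exact tree refinements of which the plane contains uncountably many
pairwise disjoint copies has span zero. -/
theorem result (M : Set (EuclideanSpace ℝ (Fin 2))) (hM : IsCompact M) (hconn : IsConnected M)
    (hX : ExactTreeRefinable M)
    (S : Set (Set (EuclideanSpace ℝ (Fin 2)))) (hS : ¬ S.Countable)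
    (hdisj : S.PairwiseDisjoint id) (hhomeo : ∀ A ∈ S, Nonempty (A ≃ₜ M)) :
    ∀ Z : Set (EuclideanSpace ℝ (Fin 2) × EuclideanSpace ℝ (Fin 2)),
      Z ⊆ M ×ˢ M → IsCompact Z → IsConnected Z → Prod.snd '' Z ⊆ Prod.fst '' Z →
      ∃ x, (x, x) ∈ Z := by
  intro Z hZM hZc hZ hpr
  exact planar_span M hM hconn hX S hS hdisj hhomeo Z hZM hZc hZ hpr

end Pool.Agent.Results.MP_da225d_gt.PlanarExactRefinements
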